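import Pool.Agent.H7.HZ.Stmts
import Pool.Agent.H54.GU.MLB0

/-!
# Board hz12, row MLG: the weights inside the parts, any bound for the missing pairs
(copy of `MLB0_thm`, with the lemmas of H54/GU/MLB0.lean)
-/

set_option autoImplicit false

open Finset

namespace Pool.HZ7

open Pool.Agent.H23.KT Pool.Agent.H46.KW Pool.KQ Pool.GT7 Pool.GU7

theorem MLG_thm (h1 : TRVStmt) (h2 : GCO0Stmt) : MLGStmt := by
  classical
  intro V _ G p w r a e φ P hprm he0 he1 hP hsz hmis
  obtain ⟨hk, hF⟩ := h1 G P hP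
  rw [hF]
  have hp : (0 : ℝ) ≤ p := Nat.cast_nonneg _
  have ha : (0 : ℝ) ≤ a := Nat.cast_nonneg _
  have hr : (r : ℝ) ≤ p := by exact_mod_cast hprm.rp
  have hg1 : 0 ≤ (r : ℝ) / (((p : ℝ) + 3 - r) * ((p : ℝ) + 2)) := by
    apply div_nonneg (Nat.cast_nonneg _)
    apply mul_nonneg <;> linarith
  set g₁ := (r : ℝ) / (((p : ℝ) + 3 - r) * ((p : ℝ) + 2)) with hg₁
  set D : ℝ := (1 + e) * a with hD
  have hD0 : 0 ≤ D := mul_nonneg (by linarith) ha
  have haD : (a : ℝ) ≤ D := by rw [hD]; nlinarith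
  have hdgn : ∀ f : Fin (p + 3) → V, ∀ i, 0 ≤ MLB08_dg G f i ∧
      0 ≤ MLB08_dg G f i * (MLB08_dg G f i - 1) := by
    intro f i
    refine ⟨Finset.sum_nonneg fun k _ => MLB08_bd_nonneg G f i k, ?_⟩
    rw [MLB08_dg_sq]
    exact Finset.sum_nonneg fun k _ => Finset.sum_nonneg fun l _ =>
      mul_nonneg (MLB08_bd_nonneg G f i k) (MLB08_bd_nonneg G f i l)
  by_cases hne : ∀ l, 0 < ((P l).card : ℝ)
  swap
  · push Not at hne
    obtain ⟨l, hl⟩ := hne
    have hl0 : P l = ∅ := by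
      rw [← Finset.card_eq_zero]
      have : ((P l).card : ℝ) = 0 := le_antisymm hl (Nat.cast_nonneg _)
      exact_mod_cast this
    have ht : trv G P = ∅ := by
      unfold trv
      rw [Finset.filter_eq_empty_iff]
      intro f hf
      have := Fintype.mem_piFinset.1 hf l
      rw [hl0] at this
      simp at this
    rw [ht, Finset.sum_empty]
    exact mul_nonneg (mul_nonneg (Nat.cast_nonneg _) (pow_nonneg hD0 _))
      (add_nonneg hg1 (mul_nonneg (by linarith) he1))
  set Ω := Fintype.piFinset P with hΩ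
  have hstep1 : ∀ f ∈ trv G P, mm G p r (un P) (univ.image f) ≤ ∑ i, ∑ z ∈ P i,
      (g₁ * MLB08_dg G (Function.update f i z) i +
      1 / 2 * (MLB08_dg G (Function.update f i z) i *
        (MLB08_dg G (Function.update f i z) i - 1))) := by
    intro f hf
    unfold mm un
    rw [Finset.sum_biUnion]
    · exact Finset.sum_le_sum fun i _ => Finset.sum_le_sum fun z hz =>
        MLB08_gg_le h2 G hprm P hP hf i hz
    · intro i _ j _ hij
      exact hP.dis i j hij
  have hpos : ∀ f : Fin (p + 3) → V, ∀ i, 0 ≤ g₁ * MLB08_dg G f i +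
      1 / 2 * (MLB08_dg G f i * (MLB08_dg G f i - 1)) := fun f i =>
    add_nonneg (mul_nonneg hg1 (hdgn f i).1) (mul_nonneg (by norm_num) (hdgn f i).2)
  refine (Finset.sum_le_sum hstep1).trans ?_
  have hstep2 : ∑ f ∈ trv G P, ∑ i, ∑ z ∈ P i,
      (g₁ * MLB08_dg G (Function.update f i z) i +
      1 / 2 * (MLB08_dg G (Function.update f i z) i * (MLB08_dg G (Function.update f i z) i - 1))) ≤
      ∑ f ∈ Ω, ∑ i, ∑ z ∈ P i,
      (g₁ * MLB08_dg G (Function.update f i z) i +
      1 / 2 * (MLB08_dg G (Function.update f i z) i * (MLB08_dg G (Function.update f i z) i - 1))) := by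
    refine Finset.sum_le_sum_of_subset_of_nonneg (Finset.filter_subset _ _) fun f _ _ => ?_
    exact Finset.sum_nonneg fun i _ => Finset.sum_nonneg fun z _ => hpos _ _
  refine hstep2.trans ?_
  rw [Finset.sum_comm]
  have htot : (tot G P : ℝ) = ∑ i, ∑ k ∈ univ.erase i, ∑ u ∈ P i, ((non G (P k) u).card : ℝ) := by
    unfold tot
    push_cast
    rfl
  have hprod1 : ∀ k : Fin (p + 3), ∏ l ∈ univ.erase k, ((P l).card : ℝ) ≤ D ^ (p + 2) := by
    intro k
    refine (Finset.prod_le_prod (fun l _ => Nat.cast_nonneg _) (fun l _ => hsz l)).trans ?_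
    rw [Finset.prod_const, Finset.card_erase_of_mem (mem_univ k), Finset.card_univ,
      Fintype.card_fin]
    exact le_of_eq (by congr 1)
  have hprod2 : ∀ k l : Fin (p + 3), l ≠ k →
      ∏ m ∈ (univ.erase k).erase l, ((P m).card : ℝ) ≤ D ^ (p + 1) := by
    intro k l hlk
    refine (Finset.prod_le_prod (fun l _ => Nat.cast_nonneg _) (fun l _ => hsz l)).trans ?_
    rw [Finset.prod_const, Finset.card_erase_of_mem (mem_erase.2 ⟨hlk, mem_univ l⟩),
      Finset.card_erase_of_mem (mem_univ k), Finset.card_univ, Fintype.card_fin]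
    exact le_of_eq (by congr 1)
  have hi : ∀ i ∈ (univ : Finset (Fin (p + 3))), ∑ f ∈ Ω, ∑ z ∈ P i,
      (g₁ * MLB08_dg G (Function.update f i z) i +
      1 / 2 * (MLB08_dg G (Function.update f i z) i * (MLB08_dg G (Function.update f i z) i - 1))) ≤
      (D ^ (p + 2) * (g₁ + ((p : ℝ) + 3) / 2 * φ)) *
        ∑ k ∈ univ.erase i, ∑ u ∈ P i, ((non G (P k) u).card : ℝ) := by
    intro i _
    rw [MLB08_sum_update P i (fun f => g₁ * MLB08_dg G f i +
      1 / 2 * (MLB08_dg G f i * (MLB08_dg G f i - 1)))]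
    have hA : ((P i).card : ℝ) * ∑ f ∈ Ω, (g₁ * MLB08_dg G f i +
        1 / 2 * (MLB08_dg G f i * (MLB08_dg G f i - 1))) =
        ∑ k ∈ univ.erase i, (g₁ * (((P i).card : ℝ) * ∑ f ∈ Ω, MLB08_bd G f i k) +
          1 / 2 * ∑ l ∈ (univ.erase i).erase k,
            (((P i).card : ℝ) * ∑ f ∈ Ω, MLB08_bd G f i k * MLB08_bd G f i l)) := by
      rw [Finset.sum_add_distrib, ← Finset.mul_sum, ← Finset.mul_sum, mul_add,
        Finset.sum_add_distrib]
      congr 1
      · have hB : ∑ f ∈ Ω, MLB08_dg G f i = ∑ k ∈ univ.erase i, ∑ f ∈ Ω, MLB08_bd G f i k := by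
          unfold MLB08_dg
          rw [Finset.sum_comm]
        rw [hB, ← Finset.mul_sum, ← Finset.mul_sum]
        ring
      · have hB : ∑ f ∈ Ω, (MLB08_dg G f i * (MLB08_dg G f i - 1)) =
            ∑ k ∈ univ.erase i, ∑ l ∈ (univ.erase i).erase k,
              ∑ f ∈ Ω, MLB08_bd G f i k * MLB08_bd G f i l := by
          rw [Finset.sum_congr rfl fun f _ => MLB08_dg_sq G f i, Finset.sum_comm]
          refine Finset.sum_congr rfl fun k _ => ?_
          rw [Finset.sum_comm]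
        rw [hB, ← Finset.mul_sum]
        have hC : ∀ k ∈ (univ : Finset (Fin (p + 3))).erase i,
            ∑ l ∈ (univ.erase i).erase k,
              ((P i).card : ℝ) * ∑ f ∈ Ω, MLB08_bd G f i k * MLB08_bd G f i l =
            ((P i).card : ℝ) * ∑ l ∈ (univ.erase i).erase k,
              ∑ f ∈ Ω, MLB08_bd G f i k * MLB08_bd G f i l := fun k _ => by
          rw [Finset.mul_sum]
        rw [Finset.sum_congr rfl hC, ← Finset.mul_sum]
        ring
    rw [hA, Finset.mul_sum]
    refine Finset.sum_le_sum fun k hk' => ?_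
    have hki : k ≠ i := (mem_erase.1 hk').1
    set M : ℝ := ∑ u ∈ P i, ((non G (P k) u).card : ℝ) with hM
    have hM0 : 0 ≤ M := Finset.sum_nonneg fun u _ => Nat.cast_nonneg _
    have hfirst : ((P i).card : ℝ) * ∑ f ∈ Ω, MLB08_bd G f i k ≤ M * D ^ (p + 2) := by
      rw [MLB08_first G P hne i k hki]
      exact mul_le_mul_of_nonneg_left (hprod1 k) hM0
    have hsecond : ∀ l ∈ (univ.erase i).erase k,
        ((P i).card : ℝ) * ∑ f ∈ Ω, MLB08_bd G f i k * MLB08_bd G f i l ≤
          φ * (M * D ^ (p + 2)) := by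
      intro l hl
      rw [mem_erase, mem_erase] at hl
      have h3 := MLB08_second G P hne hmis i k l hki hl.2.1 hl.1
      refine h3.trans ?_
      have h4 : M * ∏ m ∈ (univ.erase k).erase l, ((P m).card : ℝ) ≤ M * D ^ (p + 1) :=
        mul_le_mul_of_nonneg_left (hprod2 k l hl.1) hM0
      have h5 : 0 ≤ M * D ^ (p + 1) := mul_nonneg hM0 (pow_nonneg hD0 _)
      calc φ * a * (M * ∏ m ∈ (univ.erase k).erase l, ((P m).card : ℝ))
          ≤ φ * a * (M * D ^ (p + 1)) := mul_le_mul_of_nonneg_left h4 (mul_nonneg he1 ha)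
        _ ≤ φ * D * (M * D ^ (p + 1)) :=
            mul_le_mul_of_nonneg_right (mul_le_mul_of_nonneg_left haD he1) h5
        _ = φ * (M * D ^ (p + 2)) := by ring
    have hsum : ∑ l ∈ (univ.erase i).erase k,
        ((P i).card : ℝ) * ∑ f ∈ Ω, MLB08_bd G f i k * MLB08_bd G f i l ≤
          ((p : ℝ) + 3) * (φ * (M * D ^ (p + 2))) := by
      refine (Finset.sum_le_sum hsecond).trans ?_
      rw [Finset.sum_const, nsmul_eq_mul]
      have h3 : (((univ.erase i).erase k).card : ℝ) ≤ (p : ℝ) + 3 := by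
        have : ((univ.erase i).erase k).card ≤ p + 3 := by
          refine (Finset.card_le_univ _).trans ?_
          simp
        exact_mod_cast this
      exact mul_le_mul_of_nonneg_right h3 (mul_nonneg he1 (mul_nonneg hM0 (pow_nonneg hD0 _)))
    have h4 : g₁ * (((P i).card : ℝ) * ∑ f ∈ Ω, MLB08_bd G f i k) ≤ g₁ * (M * D ^ (p + 2)) :=
      mul_le_mul_of_nonneg_left hfirst hg1
    calc g₁ * (((P i).card : ℝ) * ∑ f ∈ Ω, MLB08_bd G f i k) +
          1 / 2 * ∑ l ∈ (univ.erase i).erase k,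
            ((P i).card : ℝ) * ∑ f ∈ Ω, MLB08_bd G f i k * MLB08_bd G f i l
        ≤ g₁ * (M * D ^ (p + 2)) + 1 / 2 * (((p : ℝ) + 3) * (φ * (M * D ^ (p + 2)))) := by
          linarith
      _ = D ^ (p + 2) * (g₁ + ((p : ℝ) + 3) / 2 * φ) * M := by ring
  refine (Finset.sum_le_sum hi).trans ?_
  rw [← Finset.mul_sum, ← htot]
  exact le_of_eq (by ring)

end Pool.HZ7
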